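import Pool.Agent.H13.MCf2

namespace Pool.Agent.Results.MP_337eac_co.Exists
open Pool.Agent.H13.MCf

theorem result : ∃ C : ∀ n, Set (SimpleGraph (Fin n)), Hereditary C ∧ ¬ MCFinite fun n => ((C n).ncard : ℤ) := by
  by_contra hn
  push Not at hn
  refine cant (fun A n => ((Cl A n).ncard : ℤ)) (fun A => hn _ (Cl_her A)) fun A B h => ?_
  have key : ∀ A B : Set ℕ, (∀ n, (Cl A n).ncard % 2 = (Cl B n).ncard % 2) → A ⊆ B := by
    intro A B h i hi
    by_contra hb
    exact Cl_mem hi (by rw [h, Cl_not hb])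
  have h' : ∀ n, (Cl A n).ncard % 2 = (Cl B n).ncard % 2 := fun n => Int.natCast_modEq_iff.1 (h n)
  exact (key A B h').antisymm (key B A fun n => (h' n).symm)

end Pool.Agent.Results.MP_337eac_co.Exists
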